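import Pool.Agent.MWGI.StmtsE

/-!
# MWGI, row TCR: the label
-/

set_option autoImplicit false

namespace Pool.Agent.MWGI.H35

open Pool.Agent.Helper14_MV Pool.Agent.Helper2_MV Pool.Agent.MVO Pool.Agent.MWL Pool.Agent.MWS
  Pool.Agent.MWH Pool.Agent.MWGI

/-- larger congruences -/
theorem bi_mono {n : ℕ} {β θ : FIC} (h : β ≤ θ) (hB : BI n (RR β)) : BI n (RR θ) where
  pos := hB.pos
  per := h _ _ hB.per
  r := h _ _ hB.r
  hh := h _ _ hB.hh
  rn := h _ _ hB.rn
  l := h _ _ hB.l
  it := fun p w w' q x hm => h _ _ (hB.it p w w' q x hm)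
  f := fun p q c r x y hm => h _ _ (hB.f p q c r x y hm)
  f' := fun p q c r x y hm => h _ _ (hB.f' p q c r x y hm)
  fe := fun p q w r x a b h1 h2 h3 hm => h _ _ (hB.fe p q w r x a b h1 h2 h3 hm)
  fe' := fun p q w r x a b h1 h2 h3 hm => h _ _ (hB.fe' p q w r x a b h1 h2 h3 hm)

theorem cb_le (l : List ℕ) (x a : ℕ) : cb l x a ≤ l.count x := by
  unfold cb
  exact (List.takeWhile_prefix _).sublist.count_le x

/-- ROW TCR -/
theorem tcr (typ : TypStmt) (hyb : HybStmt) (rtz : Rtz0Stmt) (nrw : NrwStmt) (nwd : NwdStmt)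
    (dza : DzaStmt) (mwd : MwdStmt) (_crm : CrmStmt) (csb : CsbStmt) (mv3 : Mv3Stmt) :
    TcrStmt := by
  intro n β hB k B B' hF i x a hi hxa hx2 ha1
  obtain ⟨t1, t2⟩ := typ n k B B' hF i hi
  obtain ⟨hNx, hhx⟩ := t1 x hx2
  obtain ⟨hNa, p, hp, hpi, hca⟩ := t2 a ha1
  obtain ⟨C, hC, hCi, hCp, hCs, hCm, hCA⟩ := hyb n k B B' hF i hi
  have hap : (B p).count a = 1 := by
    rw [hca p hp, if_pos (Or.inr rfl)]
  by_cases hxp : x ∈ B p
  · refine ⟨[], by simp, fun θ hθ _ => ⟨by simp, fun _ H haH => ?_⟩⟩
    have hBθ := bi_mono hθ hB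
    have haC : a ∈ C p := (hCm p hp a).2 (List.count_pos_iff.1 (by omega))
    have h1 := csb n k θ C hBθ hC i p x a hi hp hpi.symm hxa ((hCm p hp x).2 hxp) haC H
    rw [hCp, hCs] at h1
    exact mv3 n k θ hBθ H _ _ x a haH (Or.inl fun A D _ hok => h1 A D hok) _ _
  · have hAct : Act k B i p x a := {
      ik := hi
      pk := hp
      ip := hpi.symm
      nx := hNx
      na := hNa
      xa := hxa
      hx := hhx
      xi := hx2
      xp := hxp
      ai := ha1
      ap := hap
      az := fun j hj h1 h2 hm => by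
        have h3 := hca j hj
        rw [if_neg (by
          rintro (h | h)
          · exact h1 h
          · exact h2 h)] at h3
        exact absurd (List.count_pos_iff.2 hm) (by omega) }
    obtain ⟨k', i', p', hi', hp', hip', heq⟩ := rtz n k i p (Zx B x) hi hp hpi.symm
    refine ⟨n.primeFactors.toList.map (fun q => Ed.dz k' i' p'
      ((cb (B i) x a + (n - 1) * cb (B' i) x a) * (n / q ^ n.factorization q))), ?_, ?_⟩
    · intro e he
      rw [List.mem_map] at he
      obtain ⟨q, hq, rfl⟩ := he
      rw [Finset.mem_toList, Nat.mem_primeFactors] at hq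
      refine ⟨hi', hp', hip', q, n.factorization q, hq.1, ?_⟩
      rw [Nat.mul_assoc, Nat.div_mul_cancel (Nat.ordProj_dvd n q)]
      exact Dvd.intro_left _ rfl
    · intro θ hθ _
      have hBθ := bi_mono hθ hB
      obtain ⟨⟨g, hgn, hg⟩, hz2⟩ := dza n k i p θ (Zx B x) hBθ hi hp hpi.symm
      have hed : ∀ d, EdIn n (RR θ) (Ed.dz k' i' p' d) ↔ Dz n k i p d (Zx B x) (RR θ) :=
        fun d => (heq θ (2 * n + d) (2 * n) (2 * n) (2 * n + d)).symm
      constructor
      · intro hr e he
        rw [List.mem_map] at he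
        obtain ⟨q, hq, rfl⟩ := he
        rw [hed, hg]
        have h1 := nrw n k θ B B' hBθ hF hr i p x a hAct
        have h2 := nwd n k i p θ (Zx B x) hBθ hi hp hpi.symm _ _ _ _ (by
          rw [Nat.add_sub_cancel' (cb_le (B i) x a), Nat.add_sub_cancel' (cb_le (B' i) x a)]
          rcases hF.eq x hNx i hi with h | ⟨-, -, h⟩
          · have h' : (B i).count x = (B' i).count x := h
            rw [h']
          · exact h) h1
        rw [hg] at h2
        exact Dvd.dvd.mul_right h2 _
      · intro he H haH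
        have h1 : Dz n k i p (cb (B i) x a + (n - 1) * cb (B' i) x a) (Zx B x) (RR θ) := by
          apply hz2
          intro q hq
          rw [← hed]
          apply he
          rw [List.mem_map]
          exact ⟨q, Finset.mem_toList.2 hq, rfl⟩
        have h2 := mwd n k θ C hBθ hC i p x a (hCA p x a hAct) (Zx B x) (by
          intro j hj _ _
          unfold Zx
          rw [decide_eq_true_eq, hCm j hj]) _ h1 H haH (cb (B i) x a) (cb (B' i) x a) (by
            have h3 : cb (B' i) x a + (cb (B i) x a + (n - 1) * cb (B' i) x a) =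
                cb (B i) x a + n * cb (B' i) x a := by
              obtain ⟨m, rfl⟩ : ∃ m, n = m + 1 := ⟨n - 1, by have := hB.pos; omega⟩
              simp only [Nat.add_sub_cancel]
              ring
            rw [h3]
            unfold Nat.ModEq
            simp)
        rw [hCp, hCs] at h2
        exact h2

end Pool.Agent.MWGI.H35
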